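import Pool.Agent.L0h94.RZ.Bas
import Pool.Agent.W262.RK.NT1

/-!
# Project RZ, module CNT: a positive proportion of the pairs is good
-/

set_option autoImplicit false

namespace Pool.Agent.L0h94.RZ

open Finset Pool.Agent.W262.RK

namespace Cnt

lemma tup_ext {y : ℕ} {s s' : Fin 3 → ℕ} (hs : s ∈ Tup (Fin 3) 3 y) (hs' : s' ∈ Tup (Fin 3) 3 y)
    (h : ∀ i, ∀ p : ℕ, p.Prime → p ≤ y → (p ∣ s i ↔ p ∣ s' i)) : s = s' := by
  rw [mem_Tup'] at hs hs'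
  funext i
  have h1 := (PP_squarefree 3 y).squarefree_of_dvd (hs.1 i)
  have h2 := (PP_squarefree 3 y).squarefree_of_dvd (hs'.1 i)
  have key : ∀ {a : ℕ}, a ∣ PP 3 y → ∀ p : ℕ, p.Prime → p ∣ a → p ≤ y := fun ha p hp hpa =>
    (mem_PS.1 ((prime_dvd_PP hp).1 (hpa.trans ha))).1.2
  rw [← Nat.prod_primeFactors_of_squarefree h1, ← Nat.prod_primeFactors_of_squarefree h2]
  congr 1
  ext p
  rw [Nat.mem_primeFactors, Nat.mem_primeFactors]
  constructor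
  · rintro ⟨hp, hd, -⟩
    exact ⟨hp, (h i p hp (key (hs.1 i) p hp hd)).1 hd, h2.ne_zero⟩
  · rintro ⟨hp, hd, -⟩
    exact ⟨hp, (h i p hp (key (hs'.1 i) p hp hd)).2 hd, h1.ne_zero⟩

lemma ind_inj {E E' S : Finset ℕ} (hE : E ⊆ S) (hE' : E' ⊆ S) (h : ∀ p ∈ S, ind E p = ind E' p) :
    E = E' := by
  have key : ∀ {A B : Finset ℕ}, A ⊆ S → (∀ p ∈ S, ind A p = ind B p) → A ⊆ B := by
    intro A B hA hAB p hp
    have h1 := hAB p (hA hp)
    by_contra hB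
    simp only [ind, if_pos hp, if_neg hB] at h1
    exact one_ne_zero h1
  exact subset_antisymm (key hE h) (key hE' fun p hp => (h p hp).symm)

lemma mem_Ext {X y : ℕ} {s : Fin 3 → ℕ} {E : Finset ℕ} {t : ℕ × ℕ} (h : t ∈ Ext X y s E) :
    t ∈ (Icc 1 X) ×ˢ (Icc 1 X) ∧ t.1 + 4 * t.2 ≤ X ∧ Ok t.1 (t.1 + 4 * t.2) t.2 ∧
    (∀ p : ℕ, p.Prime → p ≤ y → ((p ∣ t.1 ↔ p ∣ s 0) ∧ (p ∣ t.1 + 4 * t.2 ↔ p ∣ s 1) ∧
      (p ∣ t.2 ↔ p ∣ s 2))) ∧
    ∀ p ∈ (∏ i, s i).primeFactors, tf t.1 (t.1 + 4 * t.2) t.2 p = ind E p :=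
  (@mem_filter _ _ (_) _ _).1 h

end Cnt

open Classical in
/-- module CNT -/
theorem cnt (hM : S_MASS) (hI : S_IND) : S_CNT := by
  obtain ⟨K, hK⟩ := hM
  obtain ⟨δ, c1, hδ, hδ1, hc1, X1, h1⟩ := hI K (1 / 4) (by norm_num) le_rfl
  obtain ⟨c2, hc2, X2, h2⟩ := hK δ hδ
  -- `2 ^ K ≤ log X`
  obtain ⟨X3, hX3⟩ : ∃ X3 : ℕ, ∀ X : ℕ, X3 ≤ X → (2 : ℝ) ^ K ≤ Real.log X := by
    obtain ⟨n, hn⟩ := exists_nat_ge (Real.exp ((2 : ℝ) ^ K))
    refine ⟨n, fun X hX => ?_⟩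
    have h3 : Real.exp ((2 : ℝ) ^ K) ≤ X := hn.trans (by exact_mod_cast hX)
    exact (Real.le_log_iff_exp_le (lt_of_lt_of_le (Real.exp_pos _) h3)).2 h3
  refine ⟨c1 * c2, by positivity, max X1 (max X2 X3), fun X hX => ?_⟩
  have hXX1 : X1 ≤ X := (le_max_left _ _).trans hX
  have hXX2 : X2 ≤ X := (le_max_left _ _).trans ((le_max_right _ _).trans hX)
  have hXX3 : X3 ≤ X := (le_max_right _ _).trans ((le_max_right _ _).trans hX)
  have hL := hX3 X hXX3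
  have hL0 : 0 < Real.log X := lt_of_lt_of_le (by positivity) hL
  obtain ⟨D, hD, hE⟩ := h1 X hXX1
  obtain ⟨y, hy, hyD⟩ := h2 X hXX2
  have hmass := hyD D hD
  set F := (Tup (Fin 3) 3 y).filter (fun s => ((∏ i, s i : ℕ) : ℝ) ≤ (X : ℝ) ^ δ ∧
        (2 : ℝ) ^ (∏ i, s i).primeFactors.card ≤ Real.log X ^ 19 ∧ Cln D (∏ i, s i)) with hF
  set B : (Fin 3 → ℕ) → Finset (Finset ℕ) := fun s =>
    (∏ i, s i).primeFactors.powerset.filter (fun E => ∀ o, corkS o s E ≤ K) with hB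
  set Good := ((Icc 1 X) ×ˢ (Icc 1 X)).filter (fun t : ℕ × ℕ => t.1 + 4 * t.2 ≤ X ∧
    Ok t.1 (t.1 + 4 * t.2) t.2) with hGood
  -- lower bound for each state
  have hlow : ∀ s ∈ F, ∀ E ∈ B s, c1 * (1 / 2) ^ (∏ i, s i).primeFactors.card *
      ((X : ℝ) ^ 2 / (((∏ i, s i : ℕ) : ℝ) * Real.log X ^ 3)) ≤ ((Ext X y s E).card : ℝ) := by
    intro s hs E hEs
    rw [hF, mem_filter] at hs
    rw [hB, mem_filter] at hEs
    refine hE y s E hy hs.1 hs.2.1 ?_ hs.2.2.2 hEs.2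
    calc (2 : ℝ) ^ (∏ i, s i).primeFactors.card * 2 ^ K ≤ Real.log X ^ 19 * Real.log X :=
          mul_le_mul hs.2.2.1 hL (by positivity) (by positivity)
      _ = _ := by ring
  -- the sum over the states
  have hsum : c1 * c2 * (X : ℝ) ^ 2 ≤ ∑ s ∈ F, ∑ E ∈ B s, ((Ext X y s E).card : ℝ) := by
    have e1 : ∑ s ∈ F, ∑ E ∈ B s, (c1 * (1 / 2) ^ (∏ i, s i).primeFactors.card *
        ((X : ℝ) ^ 2 / (((∏ i, s i : ℕ) : ℝ) * Real.log X ^ 3))) =
        c1 * (X : ℝ) ^ 2 / Real.log X ^ 3 * ∑ s ∈ F, (1 / ((∏ i, s i : ℕ) : ℝ)) *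
          ((1 / 2) ^ (∏ i, s i).primeFactors.card * ((B s).card : ℝ)) := by
      rw [mul_sum]
      refine sum_congr rfl fun s hs => ?_
      rw [sum_const, nsmul_eq_mul]
      rw [hF, mem_filter] at hs
      have hpos : ((∏ i, s i : ℕ) : ℝ) ≠ 0 := by
        have : (∏ i, s i : ℕ) ≠ 0 := prod_ne_zero_iff.2 fun i _ => (Tup_pos hs.1 i).ne'
        exact_mod_cast this
      have hL3 : Real.log X ^ 3 ≠ 0 := by positivity
      field_simp
    calc c1 * c2 * (X : ℝ) ^ 2 = c1 * (X : ℝ) ^ 2 / Real.log X ^ 3 * (c2 * Real.log X ^ 3) := by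
          have hL3 : Real.log X ^ 3 ≠ 0 := by positivity
          field_simp
      _ ≤ c1 * (X : ℝ) ^ 2 / Real.log X ^ 3 * ∑ s ∈ F, (1 / ((∏ i, s i : ℕ) : ℝ)) *
          ((1 / 2) ^ (∏ i, s i).primeFactors.card * ((B s).card : ℝ)) :=
          mul_le_mul_of_nonneg_left hmass (by positivity)
      _ = _ := e1.symm
      _ ≤ _ := sum_le_sum fun s hs => sum_le_sum fun E hEs => hlow s hs E hEs
  refine hsum.trans ?_
  -- disjointness
  have hcard : ∑ s ∈ F, ∑ E ∈ B s, (Ext X y s E).card =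
      ((F.sigma B).biUnion fun q => Ext X y q.1 q.2).card := by
    rw [card_biUnion, sum_sigma]
    rintro ⟨s, E⟩ hq ⟨s', E'⟩ hq' hne
    rw [mem_coe, mem_sigma] at hq hq'
    simp only at hq hq'
    refine disjoint_left.2 ?_
    intro t ht ht'
    apply hne
    replace ht := Cnt.mem_Ext ht
    replace ht' := Cnt.mem_Ext ht'
    have hs := hq.1
    have hs' := hq'.1
    rw [hF, mem_filter] at hs hs'
    have hss : s = s' := by
      refine Cnt.tup_ext hs.1 hs'.1 fun i p hp hpy => ?_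
      have a := ht.2.2.2.1 p hp hpy
      have b := ht'.2.2.2.1 p hp hpy
      fin_cases i
      · exact a.1.symm.trans b.1
      · exact a.2.1.symm.trans b.2.1
      · exact a.2.2.symm.trans b.2.2
    subst hss
    have hEE : E = E' := by
      have hE1 := hq.2
      have hE2 := hq'.2
      rw [hB, mem_filter, mem_powerset] at hE1 hE2
      refine Cnt.ind_inj hE1.1 hE2.1 fun p hp => ?_
      rw [← ht.2.2.2.2 p hp, ← ht'.2.2.2.2 p hp]
    subst hEE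
    rfl
  have hsub : ((F.sigma B).biUnion fun q => Ext X y q.1 q.2) ⊆ Good := by
    intro t ht
    rw [mem_biUnion] at ht
    obtain ⟨q, -, hq⟩ := ht
    replace hq := Cnt.mem_Ext hq
    rw [hGood, mem_filter]
    exact ⟨hq.1, hq.2.1, hq.2.2.1⟩
  have := card_le_card hsub
  rw [← hcard] at this
  exact_mod_cast this

end Pool.Agent.L0h94.RZ
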