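import Pool.Agent.L0h94.RZ.DefsF
import Pool.Agent.L0h94.RZ.Bas

/-!
# Project RZ, module FIN: the final theorem from the parts
-/

set_option autoImplicit false

namespace Pool.Agent.L0h94.RZ

open Finset Pool.Agent.W262.RK Pool.Agent.W307.RT

namespace FinM

lemma mo_nn (o : Bool) (u w : ℕ) : 0 ≤ mo o u w := by
  unfold mo
  split_ifs <;> positivity

lemma mo_le {o : Bool} {u b w : ℕ} (g : Gd u b w) : 0 ≤ (b : ℤ) - mo o u w := by
  have := g.hb
  unfold mo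
  split_ifs <;> omega

lemma inj {o o' : Bool} {u b w u' b' w' : ℕ} (g : Gd u b w) (g' : Gd u' b' w')
    (h : ((mo o u w).toNat, ((b : ℤ) - mo o u w).toNat) =
      ((mo o' u' w').toNat, ((b' : ℤ) - mo o' u' w').toNat)) : u = u' ∧ w = w' := by
  have h1 := congrArg Prod.fst h
  have h2 := congrArg Prod.snd h
  simp only at h1 h2
  have a1 := g.hb
  have a2 := g'.hb
  have a3 := g.hu
  have a4 := g'.hu
  cases o <;> cases o' <;> simp only [mo, if_true, Bool.false_eq_true, if_false] at h1 h2 <;> omega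

lemma rank0 {o : Bool} {u b w : ℕ} {c : ℤ × ℤ} (g : Gd u b w)
    (hR : Pool.Agent.L0h94.FT.Rl c ((mo o u w).toNat, ((b : ℤ) - mo o u w).toNat))
    (h0 : Module.finrank ℤ (EAB (mo o u w) b).toAffine.Point = 0) :
    Module.finrank ℤ (Sh c.1 c.2).toAffine.Point = 0 := by
  have h := Pool.Agent.L0h94.FT.rl_rank hR
  unfold Pool.Agent.L0h94.FT.rk4 Pool.Agent.L0h94.FT.rkE at h
  have e1 : (((mo o u w).toNat : ℕ) : ℤ) = mo o u w := Int.toNat_of_nonneg (mo_nn o u w)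
  have e2 : ((((b : ℤ) - mo o u w).toNat : ℕ) : ℤ) = (b : ℤ) - mo o u w :=
    Int.toNat_of_nonneg (mo_le g)
  simp only at h
  have e3 : EAB (((mo o u w).toNat : ℕ) : ℤ) ((((mo o u w).toNat : ℕ) : ℤ) +
      ((((b : ℤ) - mo o u w).toNat : ℕ) : ℤ)) = EAB (mo o u w) b := by
    rw [e1, e2]
    congr 1
    ring
  rw [e3, h0, pow_zero] at h
  by_contra hne
  have : (1 : ℝ) < 4 ^ Module.finrank ℤ (Sh c.1 c.2).toAffine.Point :=
    one_lt_pow₀ (by norm_num) hne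
  linarith

end FinM

open Classical in
/-- module FIN -/
theorem fin (hC : S_CRV) (hR : S_RLI) (hU : S_UP) (hZ : S_ZERO) (hN : S_CNT) : S_MAIN := by
  obtain ⟨C, hC0, hUp⟩ := hU
  obtain ⟨c0, hc0, X0, hlow⟩ := hN
  refine ⟨c0 / (4 * C), by positivity, (X0 + 1) ^ 6, fun H hH => ?_⟩
  set X := Nat.findGreatest (fun x => x ^ 6 ≤ H) H with hX
  have hX6 : X ^ 6 ≤ H := Nat.findGreatest_spec (P := fun x => x ^ 6 ≤ H) (Nat.zero_le H)
    (by simp)
  have hH1 : 1 ≤ H := le_trans (Nat.one_le_pow _ _ (by omega)) hH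
  have hXlarge : X0 + 1 ≤ X := by
    refine Nat.le_findGreatest ?_ hH
    exact (Nat.le_self_pow (by norm_num) _).trans hH
  have hXlt : H < (X + 1) ^ 6 := by
    by_contra hcon
    push Not at hcon
    have h1 : X + 1 ≤ X := Nat.le_findGreatest ((Nat.le_self_pow (by norm_num) _).trans hcon) hcon
    omega
  have hH3 : (H : ℝ) ^ (1 / 3 : ℝ) ≤ 4 * (X : ℝ) ^ 2 := by
    have h1 : (H : ℝ) ≤ (2 * (X : ℝ)) ^ 6 := by
      have h2 : H ≤ (2 * X) ^ 6 := hXlt.le.trans (Nat.pow_le_pow_left (by omega) 6)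
      exact_mod_cast h2
    calc (H : ℝ) ^ (1 / 3 : ℝ) ≤ ((2 * (X : ℝ)) ^ 6) ^ (1 / 3 : ℝ) :=
          Real.rpow_le_rpow (by positivity) h1 (by norm_num)
      _ = (2 * (X : ℝ)) ^ 2 := by
          rw [← Real.rpow_natCast, ← Real.rpow_mul (by positivity), ← Real.rpow_natCast]
          norm_num
      _ = _ := by ring
  set Good := ((Icc 1 X) ×ˢ (Icc 1 X)).filter (fun t : ℕ × ℕ => t.1 + 4 * t.2 ≤ X ∧
    Ok t.1 (t.1 + 4 * t.2) t.2) with hGood
  have hg : c0 * (X : ℝ) ^ 2 ≤ (Good.card : ℝ) := hlow X (by omega)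
  set Z := (Cv 2 H).filter (fun t : ℤ × ℤ => Module.finrank ℤ (Sh t.1 t.2).toAffine.Point = 0)
    with hZd
  -- the curve of a good pair
  have hex : ∀ t ∈ Good, ∃ q : Bool × (ℤ × ℤ), q.2 ∈ Z ∧
      Pool.Agent.L0h94.FT.Rl q.2 ((mo q.1 t.1 t.2).toNat,
        (((t.1 + 4 * t.2 : ℕ) : ℤ) - mo q.1 t.1 t.2).toNat) := by
    intro t ht
    rw [hGood, mem_filter] at ht
    obtain ⟨-, hle, hok⟩ := ht
    obtain ⟨o, ho⟩ := hZ t.1 (t.1 + 4 * t.2) t.2 hok
    obtain ⟨c, hc, hRl⟩ := hC o t.1 (t.1 + 4 * t.2) t.2 H hok.1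
      ((Nat.pow_le_pow_left hle 6).trans hX6)
    refine ⟨(o, c), ?_, hRl⟩
    rw [hZd, mem_filter]
    exact ⟨hc, FinM.rank0 hok.1 hRl ho⟩
  choose! q hq1 hq2 using hex
  have hcard : Good.card ≤ Z.card := by
    refine card_le_card_of_injOn (fun t => (q t).2) (fun t ht => hq1 t ht) ?_
    intro t ht t' ht' htt
    have h1 := hq2 t ht
    have h2 := hq2 t' ht'
    simp only at htt
    rw [← htt] at h2
    have h3 := hR _ _ _ h1 h2
    rw [mem_coe, hGood, mem_filter] at ht ht'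
    have h4 := FinM.inj ht.2.2.1 ht'.2.2.1 h3
    exact Prod.ext h4.1 h4.2
  have h5 := hUp H hH1
  have h6 : (Good.card : ℝ) ≤ Z.card := by exact_mod_cast hcard
  rw [div_mul_eq_mul_div, div_le_iff₀ (by positivity)]
  calc c0 * ((Cv 2 H).card : ℝ) ≤ c0 * (C * (H : ℝ) ^ (1 / 3 : ℝ)) :=
        mul_le_mul_of_nonneg_left h5 hc0.le
    _ ≤ c0 * (C * (4 * (X : ℝ) ^ 2)) := by
        apply mul_le_mul_of_nonneg_left _ hc0.le
        exact mul_le_mul_of_nonneg_left hH3 hC0.le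
    _ = (c0 * (X : ℝ) ^ 2) * (4 * C) := by ring
    _ ≤ (Good.card : ℝ) * (4 * C) := mul_le_mul_of_nonneg_right hg (by positivity)
    _ ≤ (Z.card : ℝ) * (4 * C) := mul_le_mul_of_nonneg_right h6 (by positivity)

end Pool.Agent.L0h94.RZ
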