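import Mathlib

/-!
# Project RZ, Sha: the condition at two, for points over `ℚ₂`: algebra

After `Pool/Agent/L0h61/RZ/Loc2.lean` of helper61; the integers are replaced by a ring `R` with a
homomorphism to `ZMod 8` in which each element is even or odd.
-/

set_option autoImplicit false
set_option linter.unusedVariables false
set_option linter.unusedSimpArgs false

namespace Pool.Agent.L0h19.RZ.L2

variable {R : Type} [CommRing R] [IsDomain R] [CharZero R] {φ : R →+* ZMod 8}

/-- each element is even or odd -/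
def Cx (φ : R →+* ZMod 8) : Prop := ∀ a : R, Even a ∨ Odd a

omit [IsDomain R] [CharZero R] in
lemma nb (H : Cx φ) {a : R} (h1 : Odd a) (h2 : Even a) : False := by
  obtain ⟨j, hj⟩ := h1
  obtain ⟨i, hi⟩ := h2
  have h := congrArg φ (hj.symm.trans hi)
  simp only [map_add, map_mul, map_one, map_ofNat] at h
  revert h
  generalize φ j = J
  generalize φ i = I
  revert J I
  decide

omit [IsDomain R] [CharZero R] in
lemma odd_mul' (H : Cx φ) {a b : R} (h : Odd (a * b)) : Odd a ∧ Odd b := by
  constructor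
  · rcases H a with h1 | h1
    · exact (nb H h (h1.mul_right b)).elim
    · exact h1
  · rcases H b with h1 | h1
    · exact (nb H h (h1.mul_left a)).elim
    · exact h1

omit [IsDomain R] [CharZero R] in
lemma odd_pow' (H : Cx φ) {k : R} (h : Odd (k ^ 2)) : Odd k := by
  rw [sq] at h
  exact (odd_mul' H h).1

omit [IsDomain R] [CharZero R] in
lemma odd_sq8 (φ : R →+* ZMod 8) {k : R} (h : Odd k) : φ k ^ 2 = 1 := by
  obtain ⟨j, rfl⟩ := h
  have h1 : ∀ j : ZMod 8, (2 * j + 1) ^ 2 = 1 := by decide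
  simp only [map_add, map_mul, map_one, map_ofNat]
  exact h1 _

omit [IsDomain R] [CharZero R] in
lemma e_of_odd (H : Cx φ) {r e k : R} (h : r = e * k ^ 2) (hR : Odd r) :
    Odd e ∧ Odd k ∧ φ e = φ r := by
  rw [h] at hR
  obtain ⟨h1, h2⟩ := odd_mul' H hR
  have h3 := odd_pow' H h2
  refine ⟨h1, h3, ?_⟩
  rw [h, map_mul, map_pow, odd_sq8 φ h3, mul_one]

lemma e_of_four (H : Cx φ) {a e k : R} (h : 4 * a = e * k ^ 2) (ha : Odd a)
    (he : ¬ (4 : R) ∣ e) : Odd e ∧ φ e = φ a := by
  rcases H k with ⟨j, hj⟩ | ⟨j, hj⟩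
  · have h1 : a = e * j ^ 2 := by
      have h2 : (4 : R) * a = 4 * (e * j ^ 2) := by rw [h, hj]; ring
      exact mul_left_cancel₀ (OfNat.ofNat_ne_zero 4) h2
    exact ⟨(e_of_odd H h1 ha).1, (e_of_odd H h1 ha).2.2⟩
  · exfalso
    apply he
    rw [hj] at h
    exact ⟨a - e * j ^ 2 - e * j, by linear_combination -h⟩

lemma e_of_two (H : Cx φ) {a e k : R} (h : 2 * a = e * k ^ 2) (ha : Odd a) :
    ∃ f, e = 2 * f ∧ Odd f ∧ φ f = φ a := by
  have hk : Odd k := by
    rcases H k with ⟨j, hj⟩ | hk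
    · exfalso
      have h1 : a = 2 * (e * j ^ 2) := by
        have h2 : (2 : R) * a = 2 * (2 * (e * j ^ 2)) := by rw [h, hj]; ring
        exact mul_left_cancel₀ two_ne_zero h2
      rw [h1] at ha
      exact nb H ha (even_two_mul _)
    · exact hk
  have he : Even e := by
    rcases H e with he | he
    · exact he
    · exfalso
      have h1 : Odd (e * k ^ 2) := he.mul hk.pow
      rw [← h] at h1
      exact nb H h1 (even_two_mul _)
  obtain ⟨f, hf⟩ := he
  have h1 : a = f * k ^ 2 := by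
    have h2 : (2 : R) * a = 2 * (f * k ^ 2) := by rw [h, hf]; ring
    exact mul_left_cancel₀ two_ne_zero h2
  exact ⟨f, by rw [hf]; ring, (e_of_odd H h1 ha).1, (e_of_odd H h1 ha).2.2⟩

/-- the other factor of a square -/
lemma odd_of_sq (H : Cx φ) {a e q : R} (h : a * e = q ^ 2) (ha : Odd a) (he : ¬ (4 : R) ∣ e) :
    Odd e ∧ φ a * φ e = 1 := by
  have h1 : Odd e := by
    rcases H e with ⟨f, hf⟩ | h1
    · exfalso
      have hq : Even q := by
        rcases H q with hq | hq
        · exact hq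
        · exfalso
          have h2 : Odd (q ^ 2) := hq.pow
          rw [← h, hf] at h2
          exact nb H h2 ⟨a * f, by ring⟩
      obtain ⟨j, hj⟩ := hq
      have h3 : a * f = 2 * j ^ 2 := by
        have h4 : (2 : R) * (a * f) = 2 * (2 * j ^ 2) := by
          rw [hj, hf] at h
          linear_combination h
        exact mul_left_cancel₀ two_ne_zero h4
      have h4 : Even f := by
        rcases H f with hf' | hf'
        · exact hf'
        · exfalso
          have h5 : Odd (a * f) := ha.mul hf'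
          rw [h3] at h5
          exact nb H h5 (even_two_mul _)
      obtain ⟨g, hg⟩ := h4
      exact he ⟨g, by rw [hf, hg]; ring⟩
    · exact h1
  refine ⟨h1, ?_⟩
  have h2 : Odd (q ^ 2) := by rw [← h]; exact ha.mul h1
  have h3 := odd_pow' H h2
  have h4 := congrArg φ h
  rw [map_mul, map_pow, odd_sq8 φ h3] at h4
  exact h4

lemma four_dvd_of (H : Cx φ) {a e k : R} (h : 4 * a = e * k ^ 2) (ha : Even a) (he : Odd e) :
    ∃ g, a = 4 * g := by
  have hk : Even k := by
    rcases H k with hk | hk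
    · exact hk
    · exfalso
      have h1 : Odd (e * k ^ 2) := he.mul hk.pow
      rw [← h] at h1
      exact nb H h1 ⟨2 * a, by ring⟩
  obtain ⟨j, hj⟩ := hk
  have h1 : a = e * j ^ 2 := by
    have h2 : (4 : R) * a = 4 * (e * j ^ 2) := by rw [h, hj]; ring
    exact mul_left_cancel₀ (OfNat.ofNat_ne_zero 4) h2
  have h3 : Even j := by
    rcases H j with hj' | hj'
    · exact hj'
    · exfalso
      have h3 : Odd (e * j ^ 2) := he.mul hj'.pow
      rw [← h1] at h3
      exact nb H h3 ha
  obtain ⟨i, hi⟩ := h3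
  exact ⟨e * i ^ 2, by rw [h1, hi]; ring⟩

omit [IsDomain R] [CharZero R] in
lemma cast_odd (φ : R →+* ZMod 8) {a : R} (h : Odd a) :
    φ a = 1 ∨ φ a = 3 ∨ φ a = 5 ∨ φ a = 7 := by
  obtain ⟨j, rfl⟩ := h
  have h1 : ∀ j : ZMod 8, 2 * j + 1 = 1 ∨ 2 * j + 1 = 3 ∨ 2 * j + 1 = 5 ∨ 2 * j + 1 = 7 := by decide
  simp only [map_add, map_mul, map_one, map_ofNat]
  exact h1 _

omit [IsDomain R] [CharZero R] in
lemma cast_even_sq (φ : R →+* ZMod 8) {s : R} (h : Even s) : φ s ^ 2 = 0 ∨ φ s ^ 2 = 4 := by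
  obtain ⟨j, rfl⟩ := h
  have h1 : ∀ j : ZMod 8, (j + j) ^ 2 = 0 ∨ (j + j) ^ 2 = 4 := by decide
  simp only [map_add]
  exact h1 _

omit [IsDomain R] [CharZero R] in
lemma sq_eight (H : Cx φ) {s : R} (h : Odd s) : ∃ i, s ^ 2 = 8 * i + 1 := by
  obtain ⟨j, rfl⟩ := h
  rcases H j with ⟨i, hi⟩ | ⟨i, hi⟩
  · exact ⟨i * (2 * i + 1), by rw [hi]; ring⟩
  · exact ⟨(2 * i + 1) * (i + 1), by rw [hi]; ring⟩

section core

variable {u b w r s e1 e2 e3 k1 k2 k3 q : R}

/-- the first curve -/
lemma core_false (H : Cx φ) (hwo : Odd w) (hbo : Odd b) (hw8 : φ w = 3 ∨ φ w = 7)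
    (hb8 : φ b = 3) (hrs : Even s → Odd r)
    (h1 : ¬ (4 : R) ∣ e1) (h2 : ¬ (4 : R) ∣ e2) (h3 : ¬ (4 : R) ∣ e3)
    (hR1 : r = e1 * k1 ^ 2) (hR2 : r - 4 * w * s ^ 2 = e2 * k2 ^ 2)
    (hR3 : r - b * s ^ 2 = e3 * k3 ^ 2) (hq : e1 * e2 * e3 = q ^ 2) :
    Odd e1 ∧ Odd e2 ∧ Odd e3 ∧ (φ e3 = 1 ∨ φ e3 = 5) := by
  rcases H s with hs | hs
  · -- `s` even
    have hr := hrs hs
    have hs2 : Even (s ^ 2) := hs.pow_of_ne_zero two_ne_zero
    have hR2o : Odd (r - 4 * w * s ^ 2) := hr.sub_even (hs2.mul_left _)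
    have hR3o : Odd (r - b * s ^ 2) := hr.sub_even (hs2.mul_left _)
    obtain ⟨o1, -, c1⟩ := e_of_odd H hR1 hr
    obtain ⟨o2, -, c2⟩ := e_of_odd H hR2 hR2o
    obtain ⟨o3, -, c3⟩ := e_of_odd H hR3 hR3o
    have h6 := (odd_of_sq H hq (o1.mul o2) h3).2
    refine ⟨o1, o2, o3, ?_⟩
    rw [map_mul, c1, c2] at h6
    simp only [map_sub, map_mul, map_pow, map_ofNat] at h6
    have h7 := cast_even_sq φ hs
    have h8 := cast_odd φ hr
    clear c1 c2 c3
    generalize φ r = R' at *
    generalize φ s = S at *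
    generalize φ w = W at *
    generalize φ e3 = Z at *
    generalize S ^ 2 = S2 at *
    revert R' W S2 Z
    decide
  · have hs2 : Odd (s ^ 2) := hs.pow
    have hs8 := odd_sq8 φ hs
    rcases H r with ⟨r', hr⟩ | hro
    · -- `r` even
      have hR3o : Odd (r - b * s ^ 2) := by
        rw [hr]
        exact (Even.add_self r').sub_odd (hbo.mul hs2)
      obtain ⟨o3, -, c3⟩ := e_of_odd H hR3 hR3o
      rcases H r' with ⟨r'', hr'⟩ | hro
      · -- `r = 4 r''`
        have hr4 : r = 4 * r'' := by rw [hr, hr']; ring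
        have hR1' : 4 * r'' = e1 * k1 ^ 2 := by rw [← hr4]; exact hR1
        have hR2' : 4 * (r'' - w * s ^ 2) = e2 * k2 ^ 2 := by rw [← hR2, hr4]; ring
        have hws : Odd (w * s ^ 2) := hwo.mul hs2
        have ho : Odd e1 ∧ Odd e2 := by
          rcases H r'' with h5 | h5
          · have o2 := (e_of_four H hR2' (h5.sub_odd hws) h2).1
            exact ⟨(odd_of_sq H (a := e2 * e3) (e := e1) (q := q) (by rw [← hq]; ring)
              (o2.mul o3) h1).1, o2⟩
          · have o1 := (e_of_four H hR1' h5 h1).1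
            exact ⟨o1, (odd_of_sq H (a := e1 * e3) (e := e2) (q := q) (by rw [← hq]; ring)
              (o1.mul o3) h2).1⟩
        refine ⟨ho.1, ho.2, o3, ?_⟩
        rw [c3, hr4]
        simp only [map_sub, map_mul, map_pow, map_ofNat]
        rw [hs8, hb8]
        generalize φ r'' = R' at *
        revert R'
        decide
      · -- `r = 2 r'`, `r'` odd
        exfalso
        have hR1' : 2 * r' = e1 * k1 ^ 2 := by rw [← hR1, hr]; ring
        have hR2' : 2 * (r' - 2 * w * s ^ 2) = e2 * k2 ^ 2 := by rw [← hR2, hr]; ring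
        obtain ⟨f1, g1, o1, c1⟩ := e_of_two H hR1' hro
        obtain ⟨f2, g2, o2, c2⟩ := e_of_two H hR2' (hro.sub_even ⟨w * s ^ 2, by ring⟩)
        have hqe : Even q := by
          rcases H q with hqe | hqe
          · exact hqe
          · exfalso
            have h5 : Odd (q ^ 2) := hqe.pow
            rw [← hq, g1] at h5
            exact nb H h5 ⟨f1 * e2 * e3, by ring⟩
        obtain ⟨j, hj⟩ := hqe
        have h5 : f1 * f2 * e3 = j ^ 2 := by
          have h6 : (4 : R) * (f1 * f2 * e3) = 4 * j ^ 2 := by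
            rw [g1, g2, hj] at hq
            linear_combination hq
          exact mul_left_cancel₀ (OfNat.ofNat_ne_zero 4) h6
        have h6 := (odd_of_sq H h5 (o1.mul o2) h3).2
        rw [map_mul, c1, c2, c3, hr] at h6
        simp only [map_sub, map_add, map_mul, map_pow, map_ofNat] at h6
        rw [hs8, hb8] at h6
        have h8 := cast_odd φ hro
        clear c1 c2 c3
        generalize φ r' = R' at *
        generalize φ w = W at *
        revert R' W
        decide
    · -- `r` odd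
      have hR2o : Odd (r - 4 * w * s ^ 2) := hro.sub_even ⟨2 * w * s ^ 2, by ring⟩
      obtain ⟨o1, -, c1⟩ := e_of_odd H hR1 hro
      obtain ⟨o2, -, c2⟩ := e_of_odd H hR2 hR2o
      obtain ⟨o3, h6⟩ := odd_of_sq H hq (o1.mul o2) h3
      refine ⟨o1, o2, o3, ?_⟩
      rw [map_mul, c1, c2] at h6
      simp only [map_sub, map_mul, map_pow, map_ofNat] at h6
      rw [hs8] at h6
      have h8 := cast_odd φ hro
      clear c1 c2
      generalize φ r = R' at *
      generalize φ w = W at *
      generalize φ e3 = Z at *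
      revert R' W Z
      decide

/-- the second curve -/
lemma core_true (H : Cx φ) (hb : b = u + 4 * w) (hwo : Odd w) (hbo : Odd b) (huo : Odd u)
    (hw8 : φ w = 3 ∨ φ w = 7) (hb8 : φ b = 3) (hu8 : ∃ c, u = 8 * c + 7)
    (hrs : Even s → Odd r)
    (h1 : ¬ (4 : R) ∣ e1) (h2 : ¬ (4 : R) ∣ e2) (h3 : ¬ (4 : R) ∣ e3)
    (hR1 : r = e1 * k1 ^ 2) (hR2 : r - u * s ^ 2 = e2 * k2 ^ 2)
    (hR3 : r - b * s ^ 2 = e3 * k3 ^ 2) (hq : e1 * e2 * e3 = q ^ 2) :
    Odd e1 ∧ Odd e2 ∧ Odd e3 ∧ (φ e3 = 1 ∨ φ e3 = 5) := by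
  obtain ⟨cu0, hcu0⟩ := hu8
  have hu8 : φ u = 7 := by
    rw [hcu0]
    simp only [map_add, map_mul, map_ofNat]
    generalize φ cu0 = C
    revert C
    decide
  rcases H s with hs | hs
  · -- `s` even
    have hr := hrs hs
    have hs2 : Even (s ^ 2) := hs.pow_of_ne_zero two_ne_zero
    have hR2o : Odd (r - u * s ^ 2) := hr.sub_even (hs2.mul_left _)
    have hR3o : Odd (r - b * s ^ 2) := hr.sub_even (hs2.mul_left _)
    obtain ⟨o1, -, c1⟩ := e_of_odd H hR1 hr
    obtain ⟨o2, -, c2⟩ := e_of_odd H hR2 hR2o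
    obtain ⟨o3, -, c3⟩ := e_of_odd H hR3 hR3o
    have h6 := (odd_of_sq H hq (o1.mul o2) h3).2
    refine ⟨o1, o2, o3, ?_⟩
    rw [map_mul, c1, c2, c3] at h6
    rw [c3]
    simp only [map_sub, map_mul, map_pow] at h6 ⊢
    rw [hu8, hb8] at h6
    rw [hb8]
    have h7 := cast_even_sq φ hs
    have h8 := cast_odd φ hr
    clear hw8 c1 c2 c3
    generalize φ r = R' at *
    generalize φ s = S at *
    generalize S ^ 2 = S2 at *
    revert R' S2
    decide
  · have hs2 : Odd (s ^ 2) := hs.pow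
    have hs8 := odd_sq8 φ hs
    have hws : Odd (w * s ^ 2) := hwo.mul hs2
    rcases H r with ⟨r', hr⟩ | hro
    · -- `r` even
      have hR2o : Odd (r - u * s ^ 2) := by
        rw [hr]
        exact (Even.add_self r').sub_odd (huo.mul hs2)
      have hR3o : Odd (r - b * s ^ 2) := by
        rw [hr]
        exact (Even.add_self r').sub_odd (hbo.mul hs2)
      obtain ⟨o2, -, c2⟩ := e_of_odd H hR2 hR2o
      obtain ⟨o3, -, c3⟩ := e_of_odd H hR3 hR3o
      have o1 := (odd_of_sq H (a := e2 * e3) (e := e1) (q := q) (by rw [← hq]; ring)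
        (o2.mul o3) h1).1
      refine ⟨o1, o2, o3, ?_⟩
      -- `r` is a multiple of `4`
      have hk1 : Even k1 := by
        rcases H k1 with hk | hk
        · exact hk
        · exfalso
          have h5 : Odd (e1 * k1 ^ 2) := o1.mul hk.pow
          rw [← hR1, hr] at h5
          exact nb H h5 (Even.add_self r')
      obtain ⟨j, hj⟩ := hk1
      have hr4 : r = 4 * (e1 * j ^ 2) := by rw [hR1, hj]; ring
      rw [c3, hr4]
      simp only [map_sub, map_mul, map_pow, map_ofNat]
      rw [hs8, hb8]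
      generalize φ e1 * φ j ^ 2 = R'
      revert R'
      decide
    · -- `r` odd
      obtain ⟨o1, -, c1⟩ := e_of_odd H hR1 hro
      obtain ⟨r', hr⟩ := hro
      obtain ⟨cu, hcu⟩ : ∃ c : R, u * s ^ 2 = 8 * c + 7 := by
        obtain ⟨i, hi⟩ := sq_eight H hs
        exact ⟨8 * cu0 * i + cu0 + 7 * i, by rw [hi, hcu0]; ring⟩
      have hbs : b * s ^ 2 = u * s ^ 2 + 4 * (w * s ^ 2) := by rw [hb]; ring
      rcases H r' with ⟨r'', hr'⟩ | ⟨r'', hr'⟩
      · -- `r = 1 mod 4`
        exfalso
        have hR2' : 2 * (2 * r'' - 4 * cu - 3) = e2 * k2 ^ 2 := by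
          rw [← hR2, hcu, hr, hr']; ring
        have hR3' : 2 * (2 * r'' - 4 * cu - 3 - 2 * (w * s ^ 2)) = e3 * k3 ^ 2 := by
          rw [← hR3, hbs, hcu, hr, hr']; ring
        obtain ⟨f2, g2, p2, c2⟩ := e_of_two H hR2' ⟨r'' - 2 * cu - 2, by ring⟩
        obtain ⟨f3, g3, p3, c3⟩ := e_of_two H hR3' ⟨r'' - 2 * cu - 2 - w * s ^ 2, by ring⟩
        have hqe : Even q := by
          rcases H q with hqe | hqe
          · exact hqe
          · exfalso
            have h5 : Odd (q ^ 2) := hqe.pow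
            rw [← hq, g2] at h5
            exact nb H h5 ⟨e1 * f2 * e3, by ring⟩
        obtain ⟨j, hj⟩ := hqe
        have h5 : e1 * (f2 * f3) = j ^ 2 := by
          have h6 : (4 : R) * (e1 * (f2 * f3)) = 4 * j ^ 2 := by
            rw [g2, g3, hj] at hq
            linear_combination hq
          exact mul_left_cancel₀ (OfNat.ofNat_ne_zero 4) h6
        have hjo : Odd j := by
          have h6 : Odd (j ^ 2) := by rw [← h5]; exact o1.mul (p2.mul p3)
          exact odd_pow' H h6
        have h6 := congrArg φ h5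
        rw [map_mul, map_mul, map_pow, odd_sq8 φ hjo, c1, c2, c3, hr, hr'] at h6
        simp only [map_sub, map_add, map_mul, map_pow, map_ofNat, map_one] at h6
        rw [hs8] at h6
        generalize φ r'' = R' at *
        generalize φ w = W at *
        generalize φ cu = C at *
        clear c1 c2 c3
        revert R' W C
        decide
      · -- `r = 3 mod 4`
        have hR2' : 4 * (r'' - 2 * cu - 1) = e2 * k2 ^ 2 := by
          rw [← hR2, hcu, hr, hr']; ring
        have hR3' : 4 * (r'' - 2 * cu - 1 - w * s ^ 2) = e3 * k3 ^ 2 := by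
          rw [← hR3, hbs, hcu, hr, hr']; ring
        rcases H (r'' - 2 * cu - 1) with h5 | h5
        · obtain ⟨o3, c3⟩ := e_of_four H hR3' (h5.sub_odd hws) h3
          have o2 := (odd_of_sq H (a := e1 * e3) (e := e2) (q := q) (by rw [← hq]; ring)
            (o1.mul o3) h2).1
          obtain ⟨g, hg⟩ := four_dvd_of H hR2' h5 o2
          refine ⟨o1, o2, o3, ?_⟩
          rw [c3, hg]
          simp only [map_sub, map_mul, map_pow, map_ofNat]
          rw [hs8]
          generalize φ g = R' at *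
          generalize φ w = W at *
          clear c3
          revert R' W
          decide
        · obtain ⟨o2, c2⟩ := e_of_four H hR2' h5 h2
          obtain ⟨o3, c4⟩ := odd_of_sq H hq (o1.mul o2) h3
          obtain ⟨g, hg⟩ := four_dvd_of H hR3' (h5.sub_odd hws) o3
          have ha : r'' - 2 * cu - 1 = 4 * g + w * s ^ 2 := by linear_combination hg
          have hr8 : r = 8 * cu + 7 + 4 * (4 * g + w * s ^ 2) := by
            rw [← ha, hr, hr']; ring
          refine ⟨o1, o2, o3, ?_⟩
          rw [map_mul, c1, c2, ha, hr8] at c4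
          simp only [map_add, map_mul, map_pow, map_ofNat] at c4
          rw [hs8] at c4
          clear c1 c2 hr8 ha hr'
          generalize φ g = R' at *
          generalize φ w = W at *
          generalize φ cu = C at *
          generalize φ e3 = Z at *
          revert R' W C Z
          decide

end core

end Pool.Agent.L0h19.RZ.L2
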