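import Pool.Agent.L0h94.RZ.DefsS
import Pool.Agent.L0h19.RZ.L2a

/-!
# Project RZ, Sha: the condition at two, for points over `ℚ₂`
-/

set_option autoImplicit false
set_option linter.unusedVariables false

namespace Pool.Agent.L0h19.RZ.L2

open Pool.Agent.L0h94.RZ

/-- reduction modulo `8` -/
noncomputable def ph : ℤ_[2] →+* ZMod 8 := PadicInt.toZModPow 3

lemma cx : Cx ph := by
  intro a
  obtain ⟨n, hn, h⟩ := PadicInt.exists_mem_range (p := 2) a
  rw [PadicInt.maximalIdeal_eq_span_p, Ideal.mem_span_singleton] at h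
  obtain ⟨c, hc⟩ := h
  have hn2 : n = 0 ∨ n = 1 := by omega
  rcases hn2 with rfl | rfl
  · left
    refine ⟨c, ?_⟩
    push_cast at hc
    linear_combination hc
  · right
    refine ⟨c, ?_⟩
    push_cast at hc
    linear_combination hc

lemma ph_int (e : ℤ) : ph (e : ℤ_[2]) = (e : ZMod 8) := map_intCast _ _

lemma not_four {e : ℤ} (h : Squarefree e) : ¬ (4 : ℤ) ∣ e := by
  intro h1
  have h2 := h 2 (by
    have e4 : (2 : ℤ) * 2 = 4 := by norm_num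
    rw [e4]
    exact h1)
  rw [Int.isUnit_iff] at h2
  omega

lemma not_four' {e : ℤ} (h : Squarefree e) : ¬ (4 : ℤ_[2]) ∣ (e : ℤ_[2]) := by
  rintro ⟨c, hc⟩
  apply not_four h
  have h1 := congrArg ph hc
  rw [ph_int, map_mul, map_ofNat] at h1
  have h2 : ((2 * e : ℤ) : ZMod 8) = 0 := by
    push_cast
    rw [h1]
    generalize ph c = C
    revert C
    decide
  rw [ZMod.intCast_zmod_eq_zero_iff_dvd] at h2
  push_cast at h2
  omega

lemma odd_back {e : ℤ} (h : Odd (e : ℤ_[2])) : Odd e := by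
  by_contra h1
  rw [Int.not_odd_iff_even] at h1
  obtain ⟨f, hf⟩ := h1
  exact nb cx h ⟨(f : ℤ_[2]), by rw [hf]; push_cast; ring⟩

lemma mod4_back {e : ℤ} (h : ph (e : ℤ_[2]) = 1 ∨ ph (e : ℤ_[2]) = 5) : e % 4 = 1 := by
  rw [ph_int] at h
  rcases h with h | h
  · have h1 : ((e : ℤ) : ZMod 8) = ((1 : ℤ) : ZMod 8) := by rw [h]; norm_num
    rw [ZMod.intCast_eq_intCast_iff_dvd_sub] at h1
    push_cast at h1
    omega
  · have h1 : ((e : ℤ) : ZMod 8) = ((5 : ℤ) : ZMod 8) := by rw [h]; norm_num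
    rw [ZMod.intCast_eq_intCast_iff_dvd_sub] at h1
    push_cast at h1
    omega

/-- integral representatives of the square classes -/
lemma rep {R : ℤ_[2]} {e : ℤ} (he : Squarefree e) {z : ℚ_[2]}
    (h : (R : ℚ_[2]) * (e : ℚ_[2]) = z * z) : ∃ k : ℤ_[2], R = (e : ℤ_[2]) * k ^ 2 := by
  have he0 : (e : ℚ_[2]) ≠ 0 := by exact_mod_cast he.ne_zero
  have hn : (1 / 4 : ℝ) < ‖(e : ℚ_[2])‖ := by
    by_contra hc
    push Not at hc
    apply not_four he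
    have h1 : ‖(e : ℚ_[2])‖ ≤ ((2 : ℕ) : ℝ) ^ (-(2 : ℕ) : ℤ) := by
      refine hc.trans (le_of_eq ?_)
      norm_num
    have h2 := (Padic.norm_int_le_pow_iff_dvd e 2).1 h1
    norm_num at h2
    exact h2
  have hR := R.norm_le_one
  have hR' : ‖(R : ℚ_[2])‖ ≤ 1 := R.2
  have hnn : ‖(R : ℚ_[2])‖ * ‖(e : ℚ_[2])‖ = ‖z‖ * ‖z‖ := by
    rw [← norm_mul, h, norm_mul]
  set k : ℚ_[2] := z / e with hk
  have hkn : ‖k‖ ≤ 1 := by
    have h1 : ‖k‖ < 2 := by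
      by_contra hc
      push Not at hc
      have h2 : ‖z‖ = ‖k‖ * ‖(e : ℚ_[2])‖ := by
        rw [hk, norm_div]
        field_simp
      have h3 : 0 < ‖(e : ℚ_[2])‖ := by linarith
      have h4 : ‖(R : ℚ_[2])‖ = ‖k‖ * ‖k‖ * ‖(e : ℚ_[2])‖ := by
        have h5 : ‖(R : ℚ_[2])‖ * ‖(e : ℚ_[2])‖ = (‖k‖ * ‖k‖ * ‖(e : ℚ_[2])‖) * ‖(e : ℚ_[2])‖ := by
          rw [hnn, h2]; ring
        exact mul_right_cancel₀ h3.ne' h5
      have h6 : 4 ≤ ‖k‖ * ‖k‖ := by nlinarith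
      have h7 := mul_le_mul_of_nonneg_right h6 h3.le
      linarith
    have h2 := (Padic.norm_le_pow_iff_norm_lt_pow_add_one k 0).2 (by
      norm_num
      exact h1)
    simpa using h2
  refine ⟨⟨k, hkn⟩, ?_⟩
  have h5 : (R : ℚ_[2]) = e * k ^ 2 := by
    have h6 : z = k * e := by rw [hk]; field_simp
    have h7 : (R : ℚ_[2]) * e = (e * k ^ 2) * e := by rw [h, h6]; ring
    exact mul_right_cancel₀ he0 h7
  apply Subtype.ext
  rw [h5]
  push_cast
  rfl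

/-- the denominator of `x` -/
lemma scale {x y : ℚ_[2]} {m b : ℤ} (hy : y ≠ 0)
    (h : y ^ 2 = x * (x - (m : ℚ_[2])) * (x - (b : ℚ_[2]))) :
    ∃ s r : ℤ_[2], s ≠ 0 ∧ (Even s → Odd r) ∧ x * (s : ℚ_[2]) ^ 2 = (r : ℚ_[2]) := by
  by_cases hx : ‖x‖ ≤ 1
  · refine ⟨1, ⟨x, hx⟩, one_ne_zero, fun h1 => ?_, ?_⟩
    · exact (nb cx odd_one h1).elim
    · push_cast
      rw [one_pow, mul_one]
  · push Not at hx
    have hx0 : x ≠ 0 := by
      rintro rfl
      rw [norm_zero] at hx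
      linarith
    have key : ∀ c : ℤ, ‖x - (c : ℚ_[2])‖ = ‖x‖ := by
      intro c
      have h1 : ‖(c : ℚ_[2])‖ ≤ 1 := Padic.norm_int_le_one c
      have h2 := Padic.add_eq_max_of_ne (q := x) (r := -(c : ℚ_[2])) (by
        rw [norm_neg]
        exact ne_of_gt (lt_of_le_of_lt h1 hx))
      rw [← sub_eq_add_neg, norm_neg] at h2
      rw [h2, max_eq_left (h1.trans hx.le)]
    have h1 : ‖y‖ ^ 2 = ‖x‖ ^ 3 := by
      rw [← norm_pow, h, norm_mul, norm_mul, key, key]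
      ring
    rw [Padic.norm_eq_zpow_neg_valuation hy, Padic.norm_eq_zpow_neg_valuation hx0] at h1
    rw [Padic.norm_eq_zpow_neg_valuation hx0] at hx
    have h2 : 2 * (-y.valuation) = 3 * (-x.valuation) := by
      have h3 : ((2 : ℕ) : ℝ) ^ (2 * (-y.valuation)) = ((2 : ℕ) : ℝ) ^ (3 * (-x.valuation)) := by
        rw [mul_comm 2, mul_comm 3, zpow_mul, zpow_mul]
        exact_mod_cast h1
      exact zpow_right_injective₀ (by norm_num) (by norm_num) h3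
    have h3 : x.valuation < 0 := by
      by_contra hc
      push Not at hc
      have h4 : ((2 : ℕ) : ℝ) ^ (-x.valuation) ≤ 1 := zpow_le_one_of_nonpos₀ (by norm_num) (by omega)
      linarith
    set k : ℕ := (x.valuation - y.valuation).toNat with hk
    have hk2 : -x.valuation = 2 * (k : ℤ) := by omega
    have hsn : ‖x * ((2 : ℚ_[2]) ^ k) ^ 2‖ = 1 := by
      rw [norm_mul, Padic.norm_eq_zpow_neg_valuation hx0, hk2, norm_pow, norm_pow]
      have h5 : ‖(2 : ℚ_[2])‖ = ((2 : ℕ) : ℝ)⁻¹ := by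
        have := Padic.norm_p (p := 2)
        exact_mod_cast this
      rw [h5, inv_pow, inv_pow, ← pow_mul]
      have h6 : ((2 : ℕ) : ℝ) ^ (2 * (k : ℤ)) = ((2 : ℕ) : ℝ) ^ (k * 2) := by
        rw [← zpow_natCast]
        congr 1
        push_cast
        ring
      rw [h6]
      exact mul_inv_cancel₀ (by positivity)
    obtain ⟨r0, hr0⟩ : ∃ r0 : ℤ_[2], (r0 : ℚ_[2]) = x * ((2 : ℚ_[2]) ^ k) ^ 2 :=
      ⟨⟨_, hsn.le⟩, rfl⟩
    have h9 : ‖r0‖ = 1 := by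
      rw [PadicInt.norm_def, hr0]
      exact hsn
    refine ⟨2 ^ k, r0, pow_ne_zero _ two_ne_zero, fun _ => ?_, ?_⟩
    · rcases cx r0 with ⟨c, hc⟩ | h6
      · exfalso
        have h8 : ‖(c + c : ℤ_[2])‖ ≤ 1 / 2 := by
          have h7 : (c + c : ℤ_[2]) = 2 * c := by ring
          rw [h7, norm_mul]
          have h10 : ‖(2 : ℤ_[2])‖ = ((2 : ℕ) : ℝ)⁻¹ := by
            have := PadicInt.norm_p (p := 2)
            exact_mod_cast this
          rw [h10]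
          have h11 := c.norm_le_one
          have h12 := norm_nonneg c
          norm_num
          linarith
        rw [← hc, h9] at h8
        norm_num at h8
      · exact h6
    · rw [hr0]
      push_cast
      rfl

/-- **The condition at two.** -/
theorem l2 : S_L2 := by
  intro o u b w hG e1 e2 e3 h1 h2 h3 hq hL
  obtain ⟨x, y, hy, hxy, ⟨z1, hz1⟩, ⟨z2, hz2⟩⟩ := hL
  obtain ⟨hb, hsf, hu, hw⟩ := hG
  obtain ⟨q, hq⟩ := hq
  obtain ⟨s, r, hs0, hsr, hx⟩ := scale hy hxy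
  have hx0 : x ≠ 0 := by
    rintro rfl
    apply hy
    rw [zero_mul, zero_mul] at hxy
    exact pow_eq_zero_iff two_ne_zero |>.1 hxy
  have hxm : x - ((mo o u w : ℤ) : ℚ_[2]) ≠ 0 := by
    intro h0
    apply hy
    rw [h0, mul_zero, zero_mul] at hxy
    exact pow_eq_zero_iff two_ne_zero |>.1 hxy
  have he1 : (e1 : ℚ_[2]) ≠ 0 := by exact_mod_cast h1.ne_zero
  have he2 : (e2 : ℚ_[2]) ≠ 0 := by exact_mod_cast h2.ne_zero
  have hz10 : z1 ≠ 0 := by
    rintro rfl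
    rw [mul_zero] at hz1
    exact mul_ne_zero hx0 he1 hz1
  have hz20 : z2 ≠ 0 := by
    rintro rfl
    rw [mul_zero] at hz2
    exact mul_ne_zero hxm he2 hz2
  have hqq : (e1 : ℚ_[2]) * e2 * e3 = q * q := by exact_mod_cast congrArg (Int.cast : ℤ → ℚ_[2]) hq
  have hz3 : (x - ((b : ℤ) : ℚ_[2])) * (e3 : ℚ_[2]) = (y * q / (z1 * z2)) * (y * q / (z1 * z2)) := by
    have hz : (z1 * z2) * (z1 * z2) ≠ 0 := mul_ne_zero (mul_ne_zero hz10 hz20) (mul_ne_zero hz10 hz20)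
    rw [div_mul_div_comm, eq_div_iff hz]
    calc (x - ((b : ℤ) : ℚ_[2])) * e3 * (z1 * z2 * (z1 * z2)) =
        (x - ((b : ℤ) : ℚ_[2])) * e3 * ((z1 * z1) * (z2 * z2)) := by ring
      _ = (x * (x - ((mo o u w : ℤ) : ℚ_[2])) * (x - ((b : ℤ) : ℚ_[2]))) * (e1 * e2 * e3) := by
          rw [← hz1, ← hz2]; ring
      _ = y * q * (y * q) := by rw [← hxy, hqq]; ring
  obtain ⟨k1, hk1⟩ := rep (R := r) h1 (z := z1 * s) (by rw [← hx]; linear_combination (s : ℚ_[2]) ^ 2 * hz1)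
  obtain ⟨k2, hk2⟩ := rep (R := r - ((mo o u w : ℤ) : ℤ_[2]) * s ^ 2) h2 (z := z2 * s) (by
    push_cast
    rw [← hx]
    linear_combination (s : ℚ_[2]) ^ 2 * hz2)
  obtain ⟨k3, hk3⟩ := rep (R := r - ((b : ℤ) : ℤ_[2]) * s ^ 2) h3
    (z := (y * q / (z1 * z2)) * s) (by
    rw [PadicInt.coe_sub, PadicInt.coe_mul, PadicInt.coe_pow, PadicInt.coe_intCast, ← hx]
    linear_combination (s : ℚ_[2]) ^ 2 * hz3)
  have hqR : (e1 : ℤ_[2]) * e2 * e3 = (q : ℤ_[2]) ^ 2 := by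
    rw [sq]
    exact_mod_cast congrArg (Int.cast : ℤ → ℤ_[2]) hq
  have hodd : ∀ n : ℕ, n % 2 = 1 → Odd (((n : ℤ)) : ℤ_[2]) := by
    intro n hn
    obtain ⟨j, rfl⟩ : ∃ j : ℕ, n = 2 * j + 1 := ⟨n / 2, by omega⟩
    exact ⟨(j : ℤ_[2]), by push_cast; ring⟩
  have hw8 : ph ((w : ℤ) : ℤ_[2]) = 3 ∨ ph ((w : ℤ) : ℤ_[2]) = 7 := by
    rw [ph_int]
    have h5 : w % 8 = 3 ∨ w % 8 = 7 := by omega
    rcases h5 with h5 | h5
    · left
      have h6 : ((w : ℤ) : ZMod 8) = ((3 : ℤ) : ZMod 8) := by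
        rw [ZMod.intCast_eq_intCast_iff_dvd_sub]; push_cast; omega
      rw [h6]; norm_num
    · right
      have h6 : ((w : ℤ) : ZMod 8) = ((7 : ℤ) : ZMod 8) := by
        rw [ZMod.intCast_eq_intCast_iff_dvd_sub]; push_cast; omega
      rw [h6]; norm_num
  have hb8 : ph ((b : ℤ) : ℤ_[2]) = 3 := by
    rw [ph_int]
    have h6 : ((b : ℤ) : ZMod 8) = ((3 : ℤ) : ZMod 8) := by
      rw [ZMod.intCast_eq_intCast_iff_dvd_sub]; push_cast; omega
    rw [h6]; norm_num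
  have hu8 : ∃ c : ℤ_[2], ((u : ℤ) : ℤ_[2]) = 8 * c + 7 := by
    obtain ⟨j, hj⟩ : ∃ j : ℕ, u = 8 * j + 7 := ⟨u / 8, by omega⟩
    exact ⟨(j : ℤ_[2]), by rw [hj]; push_cast; ring⟩
  have hbu : ((b : ℤ) : ℤ_[2]) = ((u : ℤ) : ℤ_[2]) + 4 * ((w : ℤ) : ℤ_[2]) := by
    rw [hb]
    push_cast
    ring
  cases o with
  | false =>
    have hm : ((mo false u w : ℤ) : ℤ_[2]) = 4 * ((w : ℤ) : ℤ_[2]) := by
      have h5 : mo false u w = 4 * (w : ℤ) := rfl
      rw [h5]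
      push_cast
      ring
    rw [hm] at hk2
    obtain ⟨a1, a2, a3, a4⟩ := core_false cx (hodd w (by omega)) (hodd b (by omega)) hw8 hb8 hsr
      (not_four' h1) (not_four' h2) (not_four' h3) hk1 hk2 hk3 hqR
    exact ⟨odd_back a1, odd_back a2, odd_back a3, mod4_back a4⟩
  | true =>
    have hm : mo true u w = (u : ℤ) := rfl
    rw [hm] at hk2
    obtain ⟨a1, a2, a3, a4⟩ := core_true cx hbu (hodd w (by omega)) (hodd b (by omega))
      (hodd u (by omega)) hw8 hb8 hu8 hsr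
      (not_four' h1) (not_four' h2) (not_four' h3) hk1 hk2 hk3 hqR
    exact ⟨odd_back a1, odd_back a2, odd_back a3, mod4_back a4⟩

end Pool.Agent.L0h19.RZ.L2
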